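import Pool.Agent.K3h81.RL.Stm
import Pool.Agent.K3h30.RS.AddP

/-!
# Rubin's conjecture for larger sets `S`: definitions
-/

set_option autoImplicit false

open NumberField IsDedekindDomain Filter Topology

noncomputable section

namespace Pool.Agent.K3h81.RL

open Pool.Agent.K3h30.RS

variable {F H G : Type} [Field F] [NumberField F] [Field H] [NumberField H] [Algebra F H]
  [CommGroup G] [Finite G] [MulSemiringAction G H]

/-- `V` is a set of prime ideals outside `S` which do not split completely in `H`. -/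
def Extra (D : RubinData F H G) (V : Finset (HeightOneSpectrum (𝓞 F))) : Prop :=
  ∀ v ∈ V, v ∉ D.S ∧ D.σ v ≠ 1

open Classical in
/-- The number of the elements of `V` with Frobenius automorphism `g`. -/
def mult (D : RubinData F H G) (V : Finset (HeightOneSpectrum (𝓞 F))) (g : G) : ℕ :=
  (V.filter fun v => D.σ v = g).card

/-- `V` is a finite set of prime ideals of `F`, disjoint from `S` and `T`, whose Frobenius
automorphisms are in `C`, each element of `C` being the Frobenius automorphism of at least `K`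
elements of `V`. -/
def OfType (D : RubinData F H G) (T : Finset (HeightOneSpectrum (𝓞 F))) (C : Finset G) (K : ℕ)
    (V : Finset (HeightOneSpectrum (𝓞 F))) : Prop :=
  Disjoint D.S V ∧ Disjoint T V ∧ (∀ v ∈ V, D.σ v ∈ C) ∧ ∀ g ∈ C, K ≤ mult D V g

theorem OfType.extra {D : RubinData F H G} {T : Finset (HeightOneSpectrum (𝓞 F))} {C : Finset G}
    {K : ℕ} {P : Finset (HeightOneSpectrum (𝓞 F))} (h : OfType D T C K P) (hC : (1 : G) ∉ C) :
    Extra D P := fun v hv =>
  ⟨fun h' => Finset.disjoint_left.1 h.1 h' hv, fun h1 => hC (h1 ▸ h.2.2.1 v hv)⟩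

/-- There is an element `u` of `e_r ℚ ⋀^r U_{S,T}` with components `0` at the characters which are
trivial on an element of `C` and with the Stark property at the other characters, such that
`a ^ m ψ (u)` is in `ℤ[G]` for all `ψ = ψ_1 ∧ ... ∧ ψ_r`, for some `m`. -/
def AwayFrom (D : RubinData F H G) (T : Finset (HeightOneSpectrum (𝓞 F))) (C : Finset G)
    (a : MonoidAlgebra ℤ G) : Prop :=
  ∃ (u : Wedge G D.r (D.U T)) (m : ℕ), D.InER u ∧
    (∀ χ : G →* ℂˣ, (∃ g ∈ C, χ g = 1) → ∀ k, charValue χ (toR (u.c k)) = 0) ∧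
    (∀ χ : G →* ℂˣ, (∀ g ∈ C, χ g ≠ 1) →
      Tendsto (fun s : ℂ => (s ^ D.r)⁻¹ * D.LT T χ⁻¹ s) (𝓝[≠] 0)
        (𝓝 (charValue χ (u.regulator D.w)))) ∧
    ∀ ψ : Fin D.r → GHom G (D.U T), ∃ z : MonoidAlgebra ℤ G, toQ (a ^ m) * u.value ψ = toQ z

end Pool.Agent.K3h81.RL
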