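import Pool.Agent.K3h81.RL.Mono
import Pool.Agent.K3h30.RS.Large
import Pool.Agent.K3h91.RL.Frb
import Pool.Agent.K3h59.RL.SylOrd

/-!
# Rubin's conjecture for larger sets `S`: conclusion
-/

set_option autoImplicit false
set_option linter.unusedSectionVars false

open NumberField IsDedekindDomain Filter Topology

noncomputable section

namespace Pool.Agent.K3h81.RL

open Pool.Agent.K3h30.RS Pool.Agent.K3h62.RS Pool.Agent.K3h3.RS

variable {F H G : Type} [Field F] [NumberField F] [Field H] [NumberField H] [Algebra F H]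
  [CommGroup G] [Finite G] [MulSemiringAction G H] [IsGaloisGroup G F H]

/-- there are sets of every type -/
theorem exists_type (D : RubinData F H G) (T : Finset (HeightOneSpectrum (𝓞 F))) (C : Finset G)
    (K : ℕ) : ∃ P, OfType D T C K P := by
  classical
  choose Q hQ1 hQ2 hQ3 using Pool.Agent.K3h91.RL.t_FRB F H G D (D.S ∪ T) K
  refine ⟨C.biUnion Q, ?_, ?_, ?_, ?_⟩
  · rw [Finset.disjoint_biUnion_right]
    exact fun g _ => Finset.disjoint_of_subset_left Finset.subset_union_left (hQ1 g)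
  · rw [Finset.disjoint_biUnion_right]
    exact fun g _ => Finset.disjoint_of_subset_left Finset.subset_union_right (hQ1 g)
  · intro v hv
    obtain ⟨g, hg, hv⟩ := Finset.mem_biUnion.1 hv
    rw [hQ3 g v hv]
    exact hg
  · intro g hg
    rw [← hQ2 g]
    refine Finset.card_le_card fun v hv => ?_
    rw [Finset.mem_filter]
    exact ⟨Finset.mem_biUnion.2 ⟨g, hg, hv⟩, hQ3 g v hv⟩

theorem OfType.mono {D : RubinData F H G} {T : Finset (HeightOneSpectrum (𝓞 F))} {C : Finset G}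
    {K K' : ℕ} (hK : K' ≤ K) {P : Finset (HeightOneSpectrum (𝓞 F))} (h : OfType D T C K P) :
    OfType D T C K' P :=
  ⟨h.1, h.2.1, h.2.2.1, fun g hg => hK.trans (h.2.2.2 g hg)⟩

theorem value_zero {U : Subgroup Hˣ} {r : ℕ} (u : Wedge G r U) (ψ : Fin r → GHom G U)
    (χ : G →* ℂˣ) (h : ∀ k, charValue χ (toR (u.c k)) = 0) :
    charValue χ (toR (u.value ψ)) = 0 := by
  rw [← cvQ_apply]
  unfold Wedge.value
  rw [map_sum]
  refine Finset.sum_eq_zero fun k _ => ?_
  rw [map_mul, cvQ_apply, h k, zero_mul]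

theorem main (D : RubinData F H G) (T : Finset (HeightOneSpectrum (𝓞 F))) (C : Finset G)
    (hC : (1 : G) ∉ C) :
    List.TFAE [
      ∃ P, ∃ h : OfType D T C 1 P, (D.addPrimes P (h.extra hC)).Rubin T,
      ∃ K : ℕ, ∀ P, ∀ h : OfType D T C K P, (D.addPrimes P (h.extra hC)).Rubin T,
      AwayFrom D T C (xC C)] ∧
    ((∀ l : ℕ, l.Prime → l ∣ Nat.card G → ∃ g ∈ C, ∃ j : ℕ, orderOf g = l ^ j) →
      (AwayFrom D T C (xC C) ↔ AwayFrom D T C (Nat.card G : MonoidAlgebra ℤ G))) := by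
  constructor
  · tfae_have 1 → 3 := by
      rintro ⟨P, h, hR⟩
      exact away_of_rubin D T hC h hR
    tfae_have 3 → 2 := fun h => rubin_of_away D T hC h
    tfae_have 2 → 1 := by
      rintro ⟨K, hK⟩
      obtain ⟨P, hP⟩ := exists_type D T C (K + 1)
      exact ⟨P, hP.mono (by omega), hK P (hP.mono (by omega))⟩
    tfae_finish
  · intro hSyl
    constructor
    · rintro ⟨u, m, hER, hz, hS, hint⟩
      obtain ⟨M, hM⟩ := Pool.Agent.K3h59.RL.t_ORD G C m
      refine ⟨u, M, hER, hz, hS, fun ψ => ?_⟩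
      obtain ⟨z, hz2⟩ := hint ψ
      obtain ⟨z', hz'⟩ := hM (u.value ψ) (fun χ hχ => value_zero u ψ χ (hz χ hχ)) ⟨z, hz2.symm⟩
      exact ⟨z', hz'.symm⟩
    · rintro ⟨u, m, hER, hz, hS, hint⟩
      obtain ⟨M, y, hM⟩ := Pool.Agent.K3h59.RL.t_SYL G C hSyl m
      refine ⟨u, M, hER, hz, hS, fun ψ => ?_⟩
      obtain ⟨z, hz2⟩ := hint ψ
      refine ⟨z * y, ?_⟩
      rw [hM, map_mul, map_mul, ← hz2]
      ring

end Pool.Agent.K3h81.RL
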