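import Pool.Agent.K3h81.RL.Data
import Pool.Agent.K3h3.RS.Uniq
import Pool.Agent.K3h30.RS.Act
import Pool.Agent.K3h90.RL.Fixf
import Pool.Agent.K3h72.RL.VNR
import Pool.Agent.K3h4.RL.Tau
import Pool.Agent.K3h30.RS.Good

/-!
# Rubin's conjecture for larger sets `S`
-/

set_option autoImplicit false
set_option linter.unusedSectionVars false

open NumberField IsDedekindDomain Filter Topology

noncomputable section

namespace Pool.Agent.K3h81.RL

open Pool.Agent.K3h30.RS Pool.Agent.K3h62.RS Pool.Agent.K3h3.RS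

variable {F H G : Type} [Field F] [NumberField F] [Field H] [NumberField H] [Algebra F H]
  [CommGroup G] [Finite G] [MulSemiringAction G H]

theorem InS_mono {S S' : Set (HeightOneSpectrum (𝓞 F))} (h : S ⊆ S') {u : Place H}
    (hu : InS S u) : InS S' u := by
  cases u with
  | inl w => trivial
  | inr w =>
    obtain ⟨v, hv, h'⟩ := hu
    exact ⟨v, h hv, h'⟩

theorem InS_union {S P : Set (HeightOneSpectrum (𝓞 F))} {u : Place H} (hu : InS (S ∪ P) u) :
    InS S u ∨ ∃ v ∈ P, ∃ w : HeightOneSpectrum (𝓞 H), u = Sum.inr w ∧ Above {v} w := by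
  cases u with
  | inl w => exact Or.inl trivial
  | inr w =>
    obtain ⟨v, hv, h'⟩ := hu
    rcases hv with hv | hv
    · exact Or.inl ⟨v, hv, h'⟩
    · exact Or.inr ⟨v, hv, w, rfl, v, rfl, h'⟩

/-- the Frobenius automorphism is in the decomposition group -/
theorem fixes_frob [IsGaloisGroup G F H] (D : RubinData F H G) {v : HeightOneSpectrum (𝓞 F)}
    (hv : v ∉ D.S) {w : HeightOneSpectrum (𝓞 H)} (hw : Above {v} w) :
    Fixes (Sum.inr w : Place H) (D.σ v) :=
  Pool.Agent.K3h92.RS.t_FIX F H G v (D.σ v) (D.frob v hv) w hw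

/-- the element `∏ (1 - σ_v⁻¹)`, `v ∈ P` -/
def xP (D : RubinData F H G) (P : Finset (HeightOneSpectrum (𝓞 F))) : MonoidAlgebra ℤ G :=
  ∏ v ∈ P, (1 - MonoidAlgebra.single (D.σ v)⁻¹ 1)

theorem toQ_single_one (g : G) :
    toQ (MonoidAlgebra.single g (1 : ℤ)) = MonoidAlgebra.single g (1 : ℚ) := by
  simp [toQ]

theorem cvQ_single (χ : G →* ℂˣ) (g : G) :
    cvQ χ (MonoidAlgebra.single g (1 : ℚ)) = χ g := by
  rw [cvQ_apply, toR_single, charValue_eq, cvHom_single]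
  simp

theorem cvQ_xP (D : RubinData F H G) (P : Finset (HeightOneSpectrum (𝓞 F))) (χ : G →* ℂˣ) :
    cvQ χ (toQ (xP D P)) = ∏ v ∈ P, (1 - ((χ⁻¹ (D.σ v) : ℂˣ) : ℂ)) := by
  unfold xP
  rw [map_prod, map_prod]
  refine Finset.prod_congr rfl fun v _ => ?_
  rw [map_sub, map_sub, map_one, map_one, toQ_single_one, cvQ_single, map_inv,
    MonoidHom.inv_apply]

theorem cvQ_xC (C : Finset G) (χ : G →* ℂˣ) :
    cvQ χ (toQ (xC C)) = ∏ g ∈ C, (1 - (χ g : ℂ)) := by
  unfold xC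
  rw [map_prod, map_prod]
  refine Finset.prod_congr rfl fun v _ => ?_
  rw [map_sub, map_sub, map_one, map_one, toQ_single_one, cvQ_single]

theorem cvQ_xC_eq_zero {C : Finset G} {χ : G →* ℂˣ} (h : ∃ g ∈ C, χ g = 1) :
    cvQ χ (toQ (xC C)) = 0 := by
  obtain ⟨g, hg, h1⟩ := h
  rw [cvQ_xC]
  exact Finset.prod_eq_zero hg (by rw [h1]; simp)

theorem cvQ_xC_ne_zero {C : Finset G} {χ : G →* ℂˣ} (h : ∀ g ∈ C, χ g ≠ 1) :
    cvQ χ (toQ (xC C)) ≠ 0 := by
  rw [cvQ_xC, Finset.prod_ne_zero_iff]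
  intro g hg h0
  apply h g hg
  ext
  rw [Units.val_one]
  exact (sub_eq_zero.1 h0).symm

theorem cvQ_xP_ne_zero {D : RubinData F H G} {P : Finset (HeightOneSpectrum (𝓞 F))} {χ : G →* ℂˣ}
    (h : ∀ v ∈ P, χ (D.σ v) ≠ 1) : cvQ χ (toQ (xP D P)) ≠ 0 := by
  rw [cvQ_xP, Finset.prod_ne_zero_iff]
  intro v hv h0
  apply h v hv
  have h1 : ((χ⁻¹ (D.σ v) : ℂˣ) : ℂ) = 1 := (sub_eq_zero.1 h0).symm
  have h2 : (χ⁻¹ (D.σ v) : ℂˣ) = 1 := by ext; rw [h1, Units.val_one]
  rw [MonoidHom.inv_apply, inv_eq_one] at h2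
  exact h2

theorem cvQ_xP_eq_zero {D : RubinData F H G} {P : Finset (HeightOneSpectrum (𝓞 F))} {χ : G →* ℂˣ}
    (h : ∃ v ∈ P, χ (D.σ v) = 1) : cvQ χ (toQ (xP D P)) = 0 := by
  obtain ⟨v, hv, h1⟩ := h
  rw [cvQ_xP]
  refine Finset.prod_eq_zero hv ?_
  rw [MonoidHom.inv_apply, h1, inv_one, Units.val_one, sub_self]

/-- `1 - g⁻¹` and `1 - g` -/
theorem one_sub_inv (g : G) : (1 - MonoidAlgebra.single g⁻¹ (1 : ℤ)) =
    (-MonoidAlgebra.single g⁻¹ (1 : ℤ)) * (1 - MonoidAlgebra.single g (1 : ℤ)) := by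
  have : (MonoidAlgebra.single g⁻¹ (1 : ℤ)) * MonoidAlgebra.single g (1 : ℤ) = 1 := by
    rw [MonoidAlgebra.single_mul_single, inv_mul_cancel, one_mul]; rfl
  linear_combination -this

theorem one_sub_inv' (g : G) : (-MonoidAlgebra.single g (1 : ℤ)) *
    (1 - MonoidAlgebra.single g⁻¹ (1 : ℤ)) = (1 - MonoidAlgebra.single g (1 : ℤ)) := by
  have : (MonoidAlgebra.single g (1 : ℤ)) * MonoidAlgebra.single g⁻¹ (1 : ℤ) = 1 := by
    rw [MonoidAlgebra.single_mul_single, mul_inv_cancel, one_mul]; rfl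
  linear_combination this

open Classical in
theorem xP_eq (D : RubinData F H G) {C : Finset G} {P : Finset (HeightOneSpectrum (𝓞 F))}
    (h : ∀ v ∈ P, D.σ v ∈ C) :
    xP D P = ∏ g ∈ C, (1 - MonoidAlgebra.single g⁻¹ (1 : ℤ)) ^
      mult D P g := by
  unfold xP
  rw [← Finset.prod_fiberwise_of_maps_to (s := P) (t := C) (g := D.σ) h]
  refine Finset.prod_congr rfl fun g _ => ?_
  unfold mult
  rw [← Finset.prod_const]
  refine Finset.prod_congr rfl fun v hv => ?_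
  rw [(Finset.mem_filter.1 hv).2]

open Classical in
/-- `∏ (1 - σ_v⁻¹)` is divisible by `(∏ (1 - g)) ^ m` -/
theorem xC_dvd_xP (D : RubinData F H G) {T : Finset (HeightOneSpectrum (𝓞 F))} {C : Finset G}
    {m : ℕ} {P : Finset (HeightOneSpectrum (𝓞 F))} (h : OfType D T C m P) :
    xC C ^ m ∣ xP D P := by
  rw [xP_eq D h.2.2.1]
  unfold xC
  rw [← Finset.prod_pow]
  refine Finset.prod_dvd_prod_of_dvd _ _ fun g hg => ?_
  refine dvd_trans ?_ (pow_dvd_pow _ (h.2.2.2 g hg))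
  rw [one_sub_inv, mul_pow]
  exact dvd_mul_left _ _

open Classical in
/-- `(∏ (1 - g)) ^ |P|` is divisible by `∏ (1 - σ_v⁻¹)` -/
theorem xP_dvd_xC (D : RubinData F H G) {C : Finset G}
    {P : Finset (HeightOneSpectrum (𝓞 F))} (h : ∀ v ∈ P, D.σ v ∈ C) :
    xP D P ∣ xC C ^ P.card := by
  rw [xP_eq D h]
  unfold xC
  rw [← Finset.prod_pow]
  refine Finset.prod_dvd_prod_of_dvd _ _ fun g hg => ?_
  have h1 : mult D P g ≤ P.card := Finset.card_filter_le _ _
  refine dvd_trans ?_ (pow_dvd_pow _ h1)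
  rw [← one_sub_inv' g, mul_pow]
  exact dvd_mul_left _ _

section places

variable [IsGaloisGroup G F H]

theorem coe_add_S (D : RubinData F H G) {P : Finset (HeightOneSpectrum (𝓞 F))}
    (hP : Extra D P) : (((D.addPrimes P hP).S : Finset (HeightOneSpectrum (𝓞 F))) :
      Set (HeightOneSpectrum (𝓞 F))) = (D.S : Set (HeightOneSpectrum (𝓞 F))) ∪ (P : Set _) := by
  classical
  exact Finset.coe_union _ _

theorem active_add (D : RubinData F H G) {P : Finset (HeightOneSpectrum (𝓞 F))} (hP : Extra D P)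
    {χ : G →* ℂˣ} (h : ∀ v ∈ P, χ (D.σ v) ≠ 1) (hA : D.Active χ) : (D.addPrimes P hP).Active χ := by
  rcases hA with hA | ⟨h1, hA⟩
  · left
    intro w hw hc
    rw [coe_add_S] at hw
    rcases InS_union hw with hw | ⟨v, hv, w', rfl, hw'⟩
    · exact hA w hw hc
    · exact ⟨D.σ v, fixes_frob D (hP v (Finset.mem_coe.1 hv)).1 hw', h v (Finset.mem_coe.1 hv)⟩
  · right
    refine ⟨h1, ?_⟩
    have hS : ∀ w : Place H, InS ((D.S : Set (HeightOneSpectrum (𝓞 F))) ∪ (P : Set _)) w →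
        InS (D.S : Set (HeightOneSpectrum (𝓞 F))) w := by
      intro w hw
      rcases InS_union hw with hw | ⟨v, hv, w', rfl, hw'⟩
      · exact hw
      · exact absurd (by rw [h1, MonoidHom.one_apply]) (h v (Finset.mem_coe.1 hv))
    intro w w' hw hw' hc hc'
    rw [coe_add_S] at hw hw'
    exact hA w w' (hS w hw) (hS w' hw') hc hc'

theorem active_of_add (D : RubinData F H G) {P : Finset (HeightOneSpectrum (𝓞 F))}
    (hP : Extra D P) {χ : G →* ℂˣ} (hA : (D.addPrimes P hP).Active χ) : D.Active χ := by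
  have hS : ∀ w : Place H, InS (D.S : Set (HeightOneSpectrum (𝓞 F))) w →
      InS ((D.S : Set (HeightOneSpectrum (𝓞 F))) ∪ (P : Set _)) w := by
    intro w hw
    exact InS_mono Set.subset_union_left hw
  unfold RubinData.Active at hA
  rw [coe_add_S] at hA
  rcases hA with hA | ⟨h1, hA⟩
  · exact Or.inl fun w hw hc => hA w (hS w hw) hc
  · exact Or.inr ⟨h1, fun w w' hw hw' hc hc' => hA w w' (hS w hw) (hS w' hw') hc hc'⟩

end places

section analytic

/-- the Euler factors of the primes of `P` -/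
def hP (D : RubinData F H G) (P : Finset (HeightOneSpectrum (𝓞 F))) (χ : G →* ℂˣ) (s : ℂ) : ℂ :=
  ∏ v ∈ P, (1 - ((χ⁻¹ (D.σ v) : ℂˣ) : ℂ) * (Ideal.absNorm v.asIdeal : ℂ) ^ (-s))

theorem LT_add [IsGaloisGroup G F H] (D : RubinData F H G)
    {P : Finset (HeightOneSpectrum (𝓞 F))} (h : Extra D P)
    (T : Finset (HeightOneSpectrum (𝓞 F))) (χ : G →* ℂˣ) (s : ℂ) :
    (D.addPrimes P h).LT T χ⁻¹ s = hP D P χ s * D.LT T χ⁻¹ s := by
  change (∏ v ∈ T, (1 - ((χ⁻¹ (D.σ v) : ℂˣ) : ℂ) * (Ideal.absNorm v.asIdeal : ℂ) ^ (1 - s))) *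
    ((∏ v ∈ P, (1 - ((χ⁻¹ (D.σ v) : ℂˣ) : ℂ) * (Ideal.absNorm v.asIdeal : ℂ) ^ (-s))) *
      D.L χ⁻¹ s) = _
  unfold hP RubinData.LT
  ring

theorem tendsto_hP (D : RubinData F H G) (P : Finset (HeightOneSpectrum (𝓞 F)))
    (χ : G →* ℂˣ) : Tendsto (hP D P χ) (𝓝[≠] 0) (𝓝 (cvQ χ (toQ (xP D P)))) := by
  have h0 : cvQ χ (toQ (xP D P)) = hP D P χ 0 := by
    rw [cvQ_xP]
    unfold hP
    refine Finset.prod_congr rfl fun v _ => ?_
    rw [neg_zero, Complex.cpow_zero, mul_one]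
  rw [h0]
  refine (Continuous.tendsto ?_ 0).mono_left nhdsWithin_le_nhds
  unfold hP
  refine continuous_finsetProd _ fun v _ => ?_
  refine continuous_const.sub (continuous_const.mul ?_)
  refine Continuous.const_cpow (by fun_prop) (Or.inl ?_)
  have := two_le_absNorm v
  exact_mod_cast (by omega : Ideal.absNorm v.asIdeal ≠ 0)

theorem tendsto_LT (D : RubinData F H G) (T : Finset (HeightOneSpectrum (𝓞 F))) (χ : G →* ℂˣ) :
    Tendsto (fun s : ℂ => D.LT T χ s) (𝓝[≠] 0) (𝓝 (D.LT T χ 0)) := by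
  have h1 : ContinuousAt (D.L χ) 0 :=
    ((D.analytic χ).differentiableAt (isOpen_compl_singleton.mem_nhds (by simp))).continuousAt
  refine Tendsto.mono_left ?_ nhdsWithin_le_nhds
  unfold RubinData.LT
  refine Tendsto.mul ?_ h1
  refine Continuous.tendsto ?_ 0
  refine continuous_finsetProd _ fun v _ => ?_
  refine continuous_const.sub (continuous_const.mul ?_)
  refine Continuous.const_cpow (by fun_prop) (Or.inl ?_)
  have := two_le_absNorm v
  exact_mod_cast (by omega : Ideal.absNorm v.asIdeal ≠ 0)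

/-- one Euler factor vanishes at `0` -/
theorem tendsto_factor (q : ℕ) (hq : 2 ≤ q) :
    Tendsto (fun s : ℂ => s⁻¹ * (1 - (q : ℂ) ^ (-s))) (𝓝[≠] 0) (𝓝 (Complex.log q)) := by
  have h0 : (q : ℂ) ≠ 0 := by exact_mod_cast (by omega : q ≠ 0)
  have h1 : HasDerivAt (fun s : ℂ => 1 - (q : ℂ) ^ (-s)) (Complex.log q) 0 := by
    have h2 : HasDerivAt (fun s : ℂ => (q : ℂ) ^ (-s))
        ((q : ℂ) ^ (-(0 : ℂ)) * Complex.log q * (-1)) 0 :=
      (hasDerivAt_neg (0 : ℂ)).const_cpow (Or.inl h0)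
    have h3 := h2.const_sub 1
    rw [neg_zero, Complex.cpow_zero, one_mul, mul_neg_one, neg_neg] at h3
    exact h3
  have h4 := h1.tendsto_slope_zero
  refine h4.congr' ?_
  filter_upwards with s
  rw [zero_add, neg_zero, Complex.cpow_zero, sub_self, sub_zero, smul_eq_mul]

/-- if sufficiently many Euler factors vanish at `0` then `s ^ (-r) L(s)` tends to `0` -/
theorem tendsto_zero (D : RubinData F H G) (P T : Finset (HeightOneSpectrum (𝓞 F)))
    (χ : G →* ℂˣ) (Q : Finset (HeightOneSpectrum (𝓞 F))) (hQ : Q ⊆ P)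
    (hχ : ∀ v ∈ Q, χ (D.σ v) = 1) (hc : Q.card = D.r + 1) :
    Tendsto (fun s : ℂ => (s ^ D.r)⁻¹ * (hP D P χ s * D.LT T χ⁻¹ s)) (𝓝[≠] 0) (𝓝 0) := by
  classical
  have e1 : ∀ s : ℂ, s ≠ 0 → (s ^ D.r)⁻¹ * (hP D P χ s * D.LT T χ⁻¹ s) =
      s * ((∏ v ∈ Q, (s⁻¹ * (1 - (Ideal.absNorm v.asIdeal : ℂ) ^ (-s)))) *
        (hP D (P \ Q) χ s * D.LT T χ⁻¹ s)) := by
    intro s hs
    have h1 : hP D P χ s = hP D (P \ Q) χ s * ∏ v ∈ Q, (1 - (Ideal.absNorm v.asIdeal : ℂ) ^ (-s)) := by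
      unfold hP
      rw [← Finset.prod_sdiff hQ]
      congr 1
      refine Finset.prod_congr rfl fun v hv => ?_
      rw [MonoidHom.inv_apply, hχ v hv, inv_one, Units.val_one, one_mul]
    rw [h1, Finset.prod_mul_distrib, Finset.prod_const, hc, inv_pow, pow_succ]
    field_simp
  have h2 : Tendsto (fun s : ℂ => s * ((∏ v ∈ Q, (s⁻¹ * (1 - (Ideal.absNorm v.asIdeal : ℂ) ^ (-s)))) *
        (hP D (P \ Q) χ s * D.LT T χ⁻¹ s))) (𝓝[≠] 0)
      (𝓝 (0 * ((∏ v ∈ Q, Complex.log (Ideal.absNorm v.asIdeal : ℕ)) *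
        (cvQ χ (toQ (xP D (P \ Q))) * D.LT T χ⁻¹ 0)))) := by
    refine Tendsto.mul (tendsto_id.mono_left nhdsWithin_le_nhds) ?_
    refine Tendsto.mul ?_ ((tendsto_hP D _ χ).mul (tendsto_LT D T χ⁻¹))
    exact tendsto_finsetProd _ fun v _ => tendsto_factor _ (two_le_absNorm v)
  rw [zero_mul] at h2
  refine h2.congr' ?_
  filter_upwards [self_mem_nhdsWithin] with s hs
  exact (e1 s hs).symm

end analytic

/-- the composition with a homomorphism which commutes with `G` -/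
def comap {U U' : Subgroup Hˣ} (ρ : U' →* U)
    (hρ : ∀ (γ : G) (x y : U'), (y : Hˣ) = act γ (x : Hˣ) → (ρ y : Hˣ) = act γ (ρ x : Hˣ))
    (ψ : GHom G U) : GHom G U' where
  f := ψ.f.comp (MonoidHom.toAdditive ρ)
  equiv γ x y h := ψ.equiv γ (ρ x) (ρ y) (hρ γ x y h)

theorem charValue_regulator_eq_zero (D : RubinData F H G) {U : Subgroup Hˣ} (u : Wedge G D.r U)
    (χ : G →* ℂˣ) (h : ∀ k, charValue χ (toR (u.c k)) = 0) :
    charValue χ (u.regulator D.w) = 0 := by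
  rw [charValue_regulator]
  refine Finset.sum_eq_zero fun k _ => ?_
  rw [cvQ_apply, h k, zero_mul]

section main

variable [IsGaloisGroup G F H]

theorem U_le_add (D : RubinData F H G) {P : Finset (HeightOneSpectrum (𝓞 F))} (h : Extra D P)
    (T : Finset (HeightOneSpectrum (𝓞 F))) : D.U T ≤ (D.addPrimes P h).U T := by
  intro x hx
  refine ⟨fun w hw => hx.1 w fun h' => hw ?_, hx.2⟩
  rw [coe_add_S]
  obtain ⟨v, hv, h''⟩ := h'
  exact ⟨v, Or.inl hv, h''⟩

/-- the Stark element away from the bad characters gives Rubin's conjecture for large `P` -/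
theorem rubin_of_away (D : RubinData F H G) (T : Finset (HeightOneSpectrum (𝓞 F))) {C : Finset G}
    (hC : (1 : G) ∉ C) (hA : AwayFrom D T C (xC C)) :
    ∃ K : ℕ, ∀ P, ∀ h : OfType D T C K P, (D.addPrimes P (h.extra hC)).Rubin T := by
  classical
  obtain ⟨u, m, hER, hz, hS, hint⟩ := hA
  refine ⟨m + (D.r + 1), fun P h => ?_⟩
  obtain ⟨z', hz'⟩ := xC_dvd_xP D h
  let u' : Wedge G D.r ((D.addPrimes P (h.extra hC)).U T) :=
    ⟨u.n, fun k => toQ (xP D P) * u.c k,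
      fun k b => ⟨(u.x k b : Hˣ), U_le_add D (h.extra hC) T (u.x k b).2⟩⟩
  have hreg : u'.regulator D.w = toR (toQ (xP D P)) * u.regulator D.w := by
    unfold Wedge.regulator
    rw [Finset.mul_sum]
    refine Finset.sum_congr rfl fun k _ => ?_
    change toR (toQ (xP D P) * u.c k) * _ = _
    rw [map_mul, mul_assoc]
  refine ⟨u', ?_, ?_, ?_⟩
  · intro χ hχ k
    change charValue χ (toR (toQ (xP D P) * u.c k)) = 0
    rw [← cvQ_apply, map_mul]
    by_cases h1 : ∃ g ∈ C, χ g = 1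
    · rw [cvQ_apply χ (u.c k), hz χ h1 k, mul_zero]
    · push Not at h1
      by_cases h2 : D.Active χ
      · exact absurd (active_add D (h.extra hC) (fun v hv => h1 _ (h.2.2.1 v hv)) h2) hχ
      · rw [cvQ_apply χ (u.c k), hER χ h2 k, mul_zero]
  · intro ψ
    let ρ : D.U T →* (D.addPrimes P (h.extra hC)).U T := Subgroup.inclusion (U_le_add D (h.extra hC) T)
    obtain ⟨z, hz2⟩ := hint (fun a => comap ρ (fun γ x y hxy => hxy) (ψ a))
    refine ⟨xC C ^ (D.r + 1) * z' * z, ?_⟩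
    have e : u'.value ψ = toQ (xP D P) *
        u.value (fun a => comap ρ (fun γ x y hxy => hxy) (ψ a)) := by
      unfold Wedge.value
      rw [Finset.mul_sum]
      refine Finset.sum_congr rfl fun k _ => ?_
      change toQ (xP D P) * u.c k * _ = _
      rw [mul_assoc]
      rfl
    refine e.trans ?_
    rw [hz', pow_add]
    have e2 : toQ (xC C ^ m * xC C ^ (D.r + 1) * z') *
        u.value (fun a => comap ρ (fun γ x y hxy => hxy) (ψ a)) =
        toQ (xC C ^ (D.r + 1) * z') * (toQ (xC C ^ m) *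
        u.value (fun a => comap ρ (fun γ x y hxy => hxy) (ψ a))) := by
      rw [map_mul, map_mul, map_mul]
      ring
    rw [e2, hz2, ← map_mul]
  · intro χ
    change Tendsto (fun s : ℂ => (s ^ D.r)⁻¹ * (D.addPrimes P (h.extra hC)).LT T χ⁻¹ s) (𝓝[≠] 0)
      (𝓝 (charValue χ (u'.regulator D.w)))
    rw [hreg, charValue_mul, ← cvQ_apply]
    simp only [LT_add]
    by_cases h1 : ∃ g ∈ C, χ g = 1
    · rw [charValue_regulator_eq_zero D u χ (hz χ h1), mul_zero]
      obtain ⟨g, hg, hg1⟩ := h1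
      obtain ⟨Q, hQ, hQc⟩ := Finset.exists_subset_card_eq
        (s := P.filter fun v => D.σ v = g) (n := D.r + 1)
        (le_trans (by omega) (h.2.2.2 g hg))
      refine tendsto_zero D P T χ Q (hQ.trans (Finset.filter_subset _ _)) ?_ hQc
      intro v hv
      rw [(Finset.mem_filter.1 (hQ hv)).2, hg1]
    · push Not at h1
      refine ((tendsto_hP D P χ).mul (hS χ h1)).congr fun s => ?_
      ring

/-- Rubin's conjecture for one `P` gives the Stark element away from the bad characters -/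
theorem away_of_rubin (D : RubinData F H G) (T : Finset (HeightOneSpectrum (𝓞 F))) {C : Finset G}
    (hC : (1 : G) ∉ C) {P : Finset (HeightOneSpectrum (𝓞 F))} (h : OfType D T C 1 P)
    (hR : (D.addPrimes P (h.extra hC)).Rubin T) : AwayFrom D T C (xC C) := by
  classical
  obtain ⟨u', hER, hint, hSt⟩ := hR
  change Wedge G D.r ((D.addPrimes P (h.extra hC)).U T) at u'
  obtain ⟨τ, hτ1, hτ2, hτ3⟩ := Pool.Agent.K3h4.RL.t_TAU F H G C
  have hmem : ∀ x ∈ (D.addPrimes P (h.extra hC)).U T, τ x ∈ D.U T := by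
    intro x hx
    refine hτ3 (D.S : Set _) (T : Set _) (P : Set _) ?_ x ?_
    · intro v hv
      exact ⟨D.σ v, h.2.2.1 v (Finset.mem_coe.1 hv), fun w hw => Pool.Agent.K3h90.RL.t_FIXF F H G v
        (D.σ v) (D.frob v (h.extra hC v (Finset.mem_coe.1 hv)).1) w hw⟩
    · have hx' : x ∈ unitGroup (((D.addPrimes P (h.extra hC)).S : Finset _) :
          Set (HeightOneSpectrum (𝓞 F))) (T : Set _) := hx
      rw [coe_add_S] at hx'
      exact hx'
  obtain ⟨z1, hz1⟩ := xP_dvd_xC D h.2.2.1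
  obtain ⟨a, ha⟩ : ∃ a : MonoidAlgebra ℚ G, a = toQ (xC C) ^ D.r * toQ (xP D P) := ⟨_, rfl⟩
  obtain ⟨b, hb1, hb2⟩ := Pool.Agent.K3h72.RL.t_VNR G a
  have hbz : ∀ χ : G →* ℂˣ, (∃ g ∈ C, χ g = 1) → cvQ χ b = 0 := by
    rintro χ ⟨g, hg, hg1⟩
    have h1 : cvQ χ a = 0 := by
      obtain ⟨v, hv⟩ := Finset.card_pos.1 (lt_of_lt_of_le Nat.zero_lt_one (h.2.2.2 g hg))
      rw [Finset.mem_filter] at hv
      rw [ha, map_mul, cvQ_xP_eq_zero ⟨v, hv.1, by rw [hv.2, hg1]⟩, mul_zero]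
    rw [← hb2, map_mul, map_mul, h1, mul_zero, zero_mul]
  have hane : ∀ χ : G →* ℂˣ, (∀ g ∈ C, χ g ≠ 1) → cvQ χ a ≠ 0 := by
    intro χ hχ
    rw [ha, map_mul, map_pow]
    exact mul_ne_zero (pow_ne_zero _ (cvQ_xC_ne_zero hχ))
      (cvQ_xP_ne_zero fun v hv => hχ _ (h.2.2.1 v hv))
  have hba : ∀ χ : G →* ℂˣ, (∀ g ∈ C, χ g ≠ 1) → cvQ χ a * cvQ χ b = 1 := by
    intro χ hχ
    have h1 := congrArg (cvQ χ) hb1
    rw [map_mul, map_mul] at h1
    exact mul_right_cancel₀ (hane χ hχ) (by rw [h1, one_mul])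
  have hxab : toQ (xC C) * (a * b) = toQ (xC C) := by
    rw [← sub_eq_zero]
    refine eq_zero_of_charValue _ fun χ => ?_
    rw [← cvQ_apply, map_sub, map_mul, map_mul]
    by_cases h1 : ∃ g ∈ C, χ g = 1
    · rw [cvQ_xC_eq_zero h1, zero_mul, sub_zero]
    · push Not at h1
      rw [hba χ h1, mul_one, sub_self]
  let u : Wedge G D.r (D.U T) :=
    ⟨u'.n, fun k => b * u'.c k, fun k j => ⟨τ (u'.x k j : Hˣ), hmem _ (u'.x k j).2⟩⟩
  refine ⟨u, D.r + P.card + 1, ?_, ?_, ?_, ?_⟩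
  · intro χ hχ k
    change charValue χ (toR (b * u'.c k)) = 0
    rw [← cvQ_apply, map_mul, cvQ_apply χ (u'.c k),
      hER χ (fun h' => hχ (active_of_add D (h.extra hC) h')) k, mul_zero]
  · intro χ hχ k
    change charValue χ (toR (b * u'.c k)) = 0
    rw [← cvQ_apply, map_mul, hbz χ hχ, zero_mul]
  · intro χ hχ
    have h1 : Tendsto (fun s : ℂ => (s ^ D.r)⁻¹ * (D.addPrimes P (h.extra hC)).LT T χ⁻¹ s) (𝓝[≠] 0)
      (𝓝 (charValue χ (u'.regulator D.w))) := hSt χ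
    simp only [LT_add] at h1
    have hxne : cvQ χ (toQ (xP D P)) ≠ 0 := cvQ_xP_ne_zero fun v hv => hχ _ (h.2.2.1 v hv)
    have h2 := h1.div (tendsto_hP D P χ) hxne
    have h3 : charValue χ (u.regulator D.w) =
        charValue χ (u'.regulator D.w) / cvQ χ (toQ (xP D P)) := by
      rw [charValue_regulator, charValue_regulator, eq_div_iff hxne, Finset.sum_mul]
      refine Finset.sum_congr rfl fun k _ => ?_
      change cvQ χ (b * u'.c k) * Matrix.det (Matrix.of fun i j =>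
        charValue χ (reg G (D.w i) (τ (u'.x k j : Hˣ)))) * _ = _
      have h4 : (Matrix.of fun i j => charValue χ (reg G (D.w i) (τ (u'.x k j : Hˣ)))) =
          Matrix.of fun i j => cvQ χ (toQ (xC C)) * charValue χ (reg G (D.w i) (u'.x k j : Hˣ)) := by
        ext i j
        simp only [Matrix.of_apply]
        rw [hτ2, charValue_mul, ← cvQ_apply]
      rw [h4, det_natCast_mul, map_mul]
      have h5 := hba χ hχ
      rw [ha, map_mul, map_pow] at h5
      linear_combination (cvQ χ (u'.c k) * Matrix.det (Matrix.of fun i j =>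
        charValue χ (reg G (D.w i) (u'.x k j : Hˣ)))) * h5
    rw [h3]
    refine h2.congr' ?_
    filter_upwards [(tendsto_hP D P χ).eventually_ne hxne] with s hs
    simp only [Pi.div_apply]
    field_simp
  · intro ψ
    let ρ : (D.addPrimes P (h.extra hC)).U T →* D.U T :=
      (τ.comp ((D.addPrimes P (h.extra hC)).U T).subtype).codRestrict (D.U T) (fun x => hmem _ x.2)
    have hρ : ∀ (γ : G) (x y : (D.addPrimes P (h.extra hC)).U T), (y : Hˣ) = act γ (x : Hˣ) →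
        (ρ y : Hˣ) = act γ (ρ x : Hˣ) := by
      intro γ x y hxy
      change τ (y : Hˣ) = act γ (τ (x : Hˣ))
      rw [hxy, hτ1]
    obtain ⟨z, hz⟩ := hint (fun i => comap ρ hρ (ψ i))
    refine ⟨xC C * z1 * z, ?_⟩
    have e : u.value ψ = b * Wedge.value u' (fun i => comap ρ hρ (ψ i)) := by
      unfold Wedge.value
      rw [Finset.mul_sum]
      refine Finset.sum_congr rfl fun k _ => ?_
      change b * u'.c k * _ = _
      rw [mul_assoc]
      rfl
    have hz' : Wedge.value u' (fun i => comap ρ hρ (ψ i)) = toQ z := hz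
    rw [e, hz']
    have e3 : toQ (xC C ^ (D.r + P.card + 1)) * (b * toQ z) =
        toQ (xC C) * (a * b) * toQ z1 * toQ z := by
      rw [ha, pow_add, pow_add, hz1, map_mul, map_mul, map_mul, map_pow, pow_one]
      ring
    rw [e3, hxab, map_mul, map_mul]

end main

end Pool.Agent.K3h81.RL
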