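import Pool.Agent.K3h4.RL.Tau

/-!
# Raising `S`-units to the power `∏ (1 - g)`, and `G`-homomorphisms
-/

set_option autoImplicit false

open NumberField IsDedekindDomain Filter Topology

noncomputable section

namespace Pool.Agent.K3h81.RL

open Pool.Agent.K3h30.RS Pool.Agent.K3h4.RL

variable {F H G : Type} [Field F] [NumberField F] [Field H] [NumberField H] [Algebra F H]
  [CommGroup G] [Finite G] [MulSemiringAction G H]

theorem psi_dl (U : Subgroup Hˣ) (ψ : GHom G U) (g : G) (y : Hˣ) (hy : y ∈ U)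
    (hg : act g y ∈ U) (hd : dl g y ∈ U) :
    ψ.f (Additive.ofMul ⟨dl g y, hd⟩) =
      (1 - MonoidAlgebra.single g 1) * ψ.f (Additive.ofMul ⟨y, hy⟩) := by
  have h1 : (⟨dl g y, hd⟩ : U) = ⟨y, hy⟩ * (⟨act g y, hg⟩)⁻¹ := by
    apply Subtype.ext
    rfl
  rw [h1, ofMul_mul, ofMul_inv, map_add, map_neg, ψ.equiv g ⟨y, hy⟩ ⟨act g y, hg⟩ rfl]
  ring

theorem exists_tau2 [IsGaloisGroup G F H] [DecidableEq G] (C : Finset G) :
    ∃ τ : Hˣ →* Hˣ,
      (∀ (γ : G) (x : Hˣ), τ (act γ x) = act γ (τ x)) ∧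
      (∀ (w : Place H) (x : Hˣ), reg G w (τ x) = toR (toQ (xC C)) * reg G w x) ∧
      (∀ g ∈ C, ∃ ρ : Hˣ →* Hˣ, ∀ x, τ x = dl g (ρ x)) ∧
      (∀ (S T : Set (HeightOneSpectrum (𝓞 F))), ∀ x ∈ unitGroup (H := H) S T,
        τ x ∈ unitGroup S T) ∧
      ∀ (U : Subgroup Hˣ), (∀ (γ : G), ∀ x ∈ U, act γ x ∈ U) → ∀ (ψ : GHom G U) (x : Hˣ)
        (hx : x ∈ U), ∃ h : τ x ∈ U, ψ.f (Additive.ofMul ⟨τ x, h⟩) =
          xC C * ψ.f (Additive.ofMul ⟨x, hx⟩) := by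
  induction C using Finset.induction_on with
  | empty =>
    have h5 : xC (∅ : Finset G) = 1 := Finset.prod_empty
    refine ⟨MonoidHom.id _, fun γ x => rfl, fun w x => ?_, fun g hg => ?_, fun S T x hx => hx,
      fun U hU ψ x hx => ⟨hx, ?_⟩⟩
    · rw [h5, map_one, map_one, one_mul]
      rfl
    · exact absurd hg (Finset.notMem_empty g)
    · rw [h5, one_mul]
      rfl
  | insert g C hg ih =>
    obtain ⟨τ, h1, h2, h3, h4, h6⟩ := ih
    have h5 : xC (insert g C) = (1 - MonoidAlgebra.single g 1) * xC C :=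
      Finset.prod_insert hg
    refine ⟨(dl g).comp τ, fun γ x => ?_, fun w x => ?_, fun g' hg' => ?_, fun S T x hx => ?_,
      fun U hU ψ x hx => ?_⟩
    · rw [MonoidHom.comp_apply, MonoidHom.comp_apply, h1, dl_act]
    · rw [MonoidHom.comp_apply, reg_dl, h2, h5, map_mul, map_mul, map_xC, mul_assoc]
    · rcases Finset.mem_insert.1 hg' with rfl | hg'
      · exact ⟨τ, fun x => rfl⟩
      · obtain ⟨ρ, hρ⟩ := h3 g' hg'
        refine ⟨(dl g).comp ρ, fun x => ?_⟩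
        rw [MonoidHom.comp_apply, MonoidHom.comp_apply, hρ, dl_comm]
    · rw [MonoidHom.comp_apply]
      exact dl_mem S T g (h4 S T x hx)
    · obtain ⟨h7, h8⟩ := h6 U hU ψ x hx
      have h9 : dl g (τ x) ∈ U := by
        rw [dl_apply]
        exact mul_mem h7 (inv_mem (hU g _ h7))
      refine ⟨h9, ?_⟩
      rw [h5, mul_assoc, ← h8]
      exact psi_dl U ψ g (τ x) h7 (hU g _ h7) h9

/-- raising `S`-units to the power `∏ (1 - g)` -/
theorem exists_tau3 [IsGaloisGroup G F H] (C : Finset G) :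
    ∃ τ : Hˣ →* Hˣ,
      (∀ (γ : G) (x : Hˣ), τ (act γ x) = act γ (τ x)) ∧
      (∀ (w : Place H) (x : Hˣ), reg G w (τ x) = toR (toQ (xC C)) * reg G w x) ∧
      (∀ (S T P : Set (HeightOneSpectrum (𝓞 F))),
        (∀ v ∈ P, ∃ g ∈ C, ∀ w : HeightOneSpectrum (𝓞 H), Above {v} w →
          ∀ x : H, w.valuation H (g • x) = w.valuation H x) →
        ∀ x ∈ unitGroup (H := H) (S ∪ P) T, τ x ∈ unitGroup S T) ∧
      ∀ (U : Subgroup Hˣ), (∀ (γ : G), ∀ x ∈ U, act γ x ∈ U) → ∀ (ψ : GHom G U) (x : Hˣ)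
        (hx : x ∈ U), ∃ h : τ x ∈ U, ψ.f (Additive.ofMul ⟨τ x, h⟩) =
          xC C * ψ.f (Additive.ofMul ⟨x, hx⟩) := by
  classical
  obtain ⟨τ, h1, h2, h3, h4, h6⟩ := exists_tau2 (F := F) (H := H) C
  refine ⟨τ, h1, h2, fun S T P hP x hx => ?_, h6⟩
  have h5 := h4 (S ∪ P) T x hx
  rw [mem_unitGroup] at h5 ⊢
  refine ⟨fun w hw => ?_, h5.2⟩
  by_cases hwP : Above P w
  · obtain ⟨v, hv, hvw⟩ := above_mem hwP
    obtain ⟨g, hg, hfix⟩ := hP v hv
    obtain ⟨ρ, hρ⟩ := h3 g hg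
    rw [hρ, dl_apply, Units.val_mul, Units.val_inv_eq_inv_val, map_mul, map_inv₀, act_val,
      hfix w hvw]
    refine mul_inv_cancel₀ ?_
    rw [Valuation.ne_zero_iff]
    exact (ρ x).ne_zero
  · refine h5.1 w fun h => ?_
    obtain ⟨v, hv, hvw⟩ := above_mem h
    rcases hv with hv | hv
    · exact hw ((above_iff hvw).2 hv)
    · exact hwP ((above_iff hvw).2 hv)

end Pool.Agent.K3h81.RL
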