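import Pool.Agent.K3h81.RL.Main
import Pool.Agent.K3h81.RL.Tau2
import Pool.Agent.K3h66.RS.Ratio
import Pool.Agent.K3h11.RS.ExtG

/-!
# Rubin's conjecture for `S ∪ V` and `S ∪ V'`
-/

set_option autoImplicit false
set_option linter.unusedSectionVars false

open NumberField IsDedekindDomain Filter Topology

noncomputable section

namespace Pool.Agent.K3h81.RL

open Pool.Agent.K3h30.RS Pool.Agent.K3h62.RS Pool.Agent.K3h3.RS

variable {F H G : Type} [Field F] [NumberField F] [Field H] [NumberField H] [Algebra F H]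
  [CommGroup G] [Finite G] [MulSemiringAction G H] [IsGaloisGroup G F H]

/-- two different prime ideals of `F` are separated by an integer of `F` -/
theorem exists_sep {v v' : HeightOneSpectrum (𝓞 F)} (h : v ≠ v') :
    ∃ x : 𝓞 F, x ∈ v.asIdeal ∧ x ∉ v'.asIdeal := by
  by_contra hcon
  push Not at hcon
  have h1 : v.asIdeal ≤ v'.asIdeal := fun x hx => hcon x hx
  have h2 := (v.isMaximal).eq_of_le v'.isPrime.ne_top h1
  exact h (HeightOneSpectrum.ext h2)

theorem adic_lt {w : HeightOneSpectrum (𝓞 H)} {x : H} :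
    HeightOneSpectrum.adicAbv H w x < 1 ↔ w.valuation H x < 1 := by
  rw [NumberField.HeightOneSpectrum.adicAbv_def]
  have h1 : (1 : ℝ) = ((1 : NNReal) : ℝ) := rfl
  rw [h1, NNReal.coe_lt_coe, WithZeroMulInt.toNNReal_lt_one_iff
    (NumberField.HeightOneSpectrum.one_lt_absNorm_nnreal w)]

/-- a place over `v`, `v` not in `S`, is not conjugate to a place over `S` -/
theorem not_conj {S : Set (HeightOneSpectrum (𝓞 F))} {v : HeightOneSpectrum (𝓞 F)} (hv : v ∉ S)
    {w : HeightOneSpectrum (𝓞 H)} (hw : Above {v} w) {u : Place H} (hu : InS S u) :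
    ¬ Conj G u (Sum.inr w : Place H) := by
  rintro ⟨γ, hγ⟩
  cases u with
  | inl u =>
    have h1 := hγ 2
    have h2 : γ • (2 : H) = 2 := map_ofNat (MulSemiringAction.toRingHom G H γ) 2
    rw [h2] at h1
    change u 2 ^ u.mult = HeightOneSpectrum.adicAbv H w 2 at h1
    have h3 : (1 : ℝ) < u 2 ^ u.mult := by
      have h4 : u (2 : H) = 2 := by
        have := NumberField.InfinitePlace.norm_embedding_eq u (2 : H)
        rw [← this, map_ofNat]
        norm_num
      rw [h4]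
      exact one_lt_pow₀ (by norm_num) u.mult_ne_zero
    have h5 : HeightOneSpectrum.adicAbv H w (2 : H) ≤ 1 := by
      have := NumberField.HeightOneSpectrum.adicAbv_natCast_le_one H w 2
      exact_mod_cast this
    linarith
  | inr u =>
    obtain ⟨v', hv', hu'⟩ := above_mem hu
    have hne : v' ≠ v := fun h => hv (h ▸ hv')
    obtain ⟨x, hx1, hx2⟩ := exists_sep hne
    have h1 := hγ (algebraMap F H (x : F))
    have h2 : γ • (algebraMap F H (x : F)) = algebraMap F H (x : F) := smul_algebraMap _ _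
    rw [h2] at h1
    change HeightOneSpectrum.adicAbv H u _ = HeightOneSpectrum.adicAbv H w _ at h1
    have e : algebraMap F H (x : F) = ((algebraMap (𝓞 F) (𝓞 H) x : 𝓞 H) : H) := rfl
    have h3 : u.valuation H (algebraMap F H (x : F)) < 1 := by
      rw [e, u.valuation_lt_one_iff_mem]
      change x ∈ u.asIdeal.comap (algebraMap (𝓞 F) (𝓞 H))
      rw [above_singleton.1 hu']
      exact hx1
    have h4 : ¬ w.valuation H (algebraMap F H (x : F)) < 1 := by
      rw [e, w.valuation_lt_one_iff_mem]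
      change ¬ x ∈ w.asIdeal.comap (algebraMap (𝓞 F) (𝓞 H))
      rw [above_singleton.1 hw]
      exact hx2
    rw [← adic_lt, ← h1, adic_lt] at h4
    exact h4 h3

theorem not_active (D : RubinData F H G) {V : Finset (HeightOneSpectrum (𝓞 F))}
    (hV : Extra D V) {χ : G →* ℂˣ} {v : HeightOneSpectrum (𝓞 F)} (hv : v ∈ V)
    (h1 : χ (D.σ v) = 1) : ¬ (D.addPrimes V hV).Active χ := by
  obtain ⟨w, hw⟩ := (Pool.Agent.K3h25.RS.t_OVER F H v).1
  have hfix := fixes_frob D (hV v hv).1 hw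
  have hnc : ∀ i, ¬ Conj G (Sum.inr w : Place H) (D.w i) := by
    rintro i ⟨γ, hγ⟩
    refine (hV v hv).2 (D.splits i _ fun x => ?_)
    have h2 := hγ (γ⁻¹ • x)
    have h3 := hγ (D.σ v • γ⁻¹ • x)
    rw [smul_inv_smul] at h2
    rw [← h2, ← hfix (γ⁻¹ • x), h3, ← mul_smul, ← mul_smul]
    congr 2
    rw [mul_comm γ, mul_assoc, mul_inv_cancel, mul_one]
  have hwS : InS ((D.S : Set (HeightOneSpectrum (𝓞 F))) ∪ (V : Set _)) (Sum.inr w : Place H) := by
    obtain ⟨v', hv', hvw⟩ := hw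
    exact ⟨v', Or.inr (by rw [Set.mem_singleton_iff.1 hv']; exact Finset.mem_coe.2 hv), hvw⟩
  intro hA
  unfold RubinData.Active at hA
  rw [coe_add_S] at hA
  rcases hA with hA | ⟨hχ, hA⟩
  · obtain ⟨γ, hγ, hγ2⟩ := hA _ hwS hnc
    obtain ⟨k, hk⟩ := Subgroup.mem_zpowers_iff.1 (Pool.Agent.K3h92.RS.t_DECOMP F H G v
      (D.unramified v (hV v hv).1) (D.σ v) (D.frob v (hV v hv).1) w hw γ hγ)
    apply hγ2
    rw [← hk, map_zpow, h1, one_zpow]
  · obtain ⟨u, hu, hu'⟩ := D.more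
    exact not_conj (hV v hv).1 hw hu (hA u (Sum.inr w) (InS_mono Set.subset_union_left hu) hwS
      hu' hnc)

theorem fg_U (D : RubinData F H G) (T : Finset (HeightOneSpectrum (𝓞 F))) :
    Group.FG (D.U T) := by
  have h1 : AddGroup.FG (Additive (unitGroup (H := H) (D.S : Set (HeightOneSpectrum (𝓞 F))) ∅)) :=
    fgA Pool.Agent.K3h25.RS.t_OVER D.S
  have h2 : Module.Finite ℤ (Additive (unitGroup (H := H)
      (D.S : Set (HeightOneSpectrum (𝓞 F))) ∅)) := Module.Finite.iff_addGroup_fg.2 h1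
  have hle : D.U T ≤ unitGroup (H := H) (D.S : Set (HeightOneSpectrum (𝓞 F))) ∅ :=
    fun x hx => ⟨hx.1, fun w hw => by obtain ⟨v, hv, -⟩ := hw; exact absurd hv (Set.notMem_empty v)⟩
  let f : Additive (D.U T) →+ Additive (unitGroup (H := H)
      (D.S : Set (HeightOneSpectrum (𝓞 F))) ∅) := MonoidHom.toAdditive (Subgroup.inclusion hle)
  have h3 : Module.Finite ℤ (Additive (D.U T)) := by
    refine Module.Finite.of_injective f.toIntLinearMap ?_
    intro x y hxy
    exact Additive.toMul.injective (Subgroup.inclusion_injective hle (congrArg Additive.toMul hxy))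
  have h4 : AddGroup.FG (Additive (D.U T)) := Module.Finite.iff_addGroup_fg.1 h3
  exact Group.fg_iff_monoid_fg.2 (Monoid.fg_iff_add_fg.2 (AddGroup.fg_iff_addMonoid_fg.1 h4))

theorem act_mem_U (D : RubinData F H G) (T : Finset (HeightOneSpectrum (𝓞 F))) (γ : G) (x : Hˣ)
    (hx : x ∈ D.U T) : act γ x ∈ D.U T :=
  act_mem Pool.Agent.K3h25.RS.t_TRANS _ _ γ hx

/-- extension of homomorphisms to larger `S` -/
theorem exists_ext (D : RubinData F H G) {V : Finset (HeightOneSpectrum (𝓞 F))}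
    (hV : Extra D V) (T : Finset (HeightOneSpectrum (𝓞 F))) (ψ : GHom G (D.U T)) :
    ∃ ψ' : GHom G ((D.addPrimes V hV).U T), ∀ x : D.U T,
      ψ'.f (Additive.ofMul ⟨(x : Hˣ), U_le_add D hV T x.2⟩) = ψ.f (Additive.ofMul x) := by
  refine Pool.Agent.K3h11.RS.t_EXTG H G (D.U T) ((D.addPrimes V hV).U T) (U_le_add D hV T)
    (fun γ x hx => act_mem_U D T γ x hx) (fun γ x hx => act_mem_U _ T γ x hx) (fg_U _ T) ?_ ψ
  intro x hx n hn hxn
  refine ⟨fun w hw => ?_, hx.2⟩
  have h1 := hxn.1 w hw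
  rw [Units.val_pow_eq_pow_val, map_pow] at h1
  rcases lt_trichotomy (w.valuation H (x : H)) 1 with h2 | h2 | h2
  · exact absurd h1 (pow_lt_one₀ zero_le h2 hn.ne').ne
  · exact h2
  · exact absurd h1 (one_lt_pow₀ h2 hn.ne').ne'

/-- the quotient of the Euler factors at `0` -/
theorem tendsto_ratio (D : RubinData F H G) {V V' : Finset (HeightOneSpectrum (𝓞 F))}
    (e : HeightOneSpectrum (𝓞 F) → HeightOneSpectrum (𝓞 F))
    (he : Set.InjOn e (V : Set (HeightOneSpectrum (𝓞 F)))) (hm : ∀ v ∈ V, e v ∈ V')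
    (hz : ∀ v ∈ V, D.σ (e v) ∈ Subgroup.zpowers (D.σ v)) (χ : G →* ℂˣ) :
    ∃ l : ℂ, Tendsto (fun s : ℂ => hP D V' χ s / hP D V χ s) (𝓝[≠] 0) (𝓝 l) := by
  classical
  have h1 : ∀ v : V, ∃ l : ℂ, Tendsto (fun s : ℂ =>
      (1 - ((χ⁻¹ (D.σ (e v.1)) : ℂˣ) : ℂ) * (Ideal.absNorm (e v.1).asIdeal : ℂ) ^ (-s)) /
      (1 - ((χ⁻¹ (D.σ v.1) : ℂˣ) : ℂ) * (Ideal.absNorm v.1.asIdeal : ℂ) ^ (-s))) (𝓝[≠] 0)
      (𝓝 l) := by
    intro v
    refine Pool.Agent.K3h66.RS.t_RATIO _ _ _ _ (two_le_absNorm _) (two_le_absNorm _) ?_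
    intro h
    obtain ⟨k, hk⟩ := Subgroup.mem_zpowers_iff.1 (hz v.1 v.2)
    have h2 : (χ⁻¹ (D.σ v.1) : ℂˣ) = 1 := by ext; rw [h, Units.val_one]
    rw [← hk, map_zpow, h2, one_zpow, Units.val_one]
  choose l hl using h1
  refine ⟨cvQ χ (toQ (xP D (V' \ V.image e))) * ∏ v : V, l v, ?_⟩
  have h2 := (tendsto_hP D (V' \ V.image e) χ).mul
    (tendsto_finsetProd (Finset.univ : Finset V) fun v _ => hl v)
  refine h2.congr fun s => ?_
  have hsub : V.image e ⊆ V' := by
    intro v' hv'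
    obtain ⟨v, hv, rfl⟩ := Finset.mem_image.1 hv'
    exact hm v hv
  rw [Finset.prod_div_distrib, ← mul_div_assoc]
  congr 1
  · unfold hP
    rw [← Finset.prod_sdiff hsub, Finset.prod_image he]
    congr 1
    exact Finset.prod_coe_sort V (fun v => (1 - ((χ⁻¹ (D.σ (e v)) : ℂˣ) : ℂ) *
      (Ideal.absNorm (e v).asIdeal : ℂ) ^ (-s)))
  · unfold hP
    exact Finset.prod_coe_sort V (fun v => (1 - ((χ⁻¹ (D.σ v) : ℂˣ) : ℂ) *
      (Ideal.absNorm v.asIdeal : ℂ) ^ (-s)))

/-- the Euler factors do not vanish near `0` -/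
theorem hP_ne (D : RubinData F H G) (V : Finset (HeightOneSpectrum (𝓞 F))) (χ : G →* ℂˣ) :
    ∀ᶠ s : ℂ in 𝓝[≠] 0, hP D V χ s ≠ 0 := by
  unfold hP
  simp only [Finset.prod_ne_zero_iff]
  rw [Filter.eventually_all_finset]
  intro v _
  by_cases h : ((χ⁻¹ (D.σ v) : ℂˣ) : ℂ) = 1
  · have h1 := tendsto_factor (Ideal.absNorm v.asIdeal) (two_le_absNorm v)
    have h2 : Complex.log ((Ideal.absNorm v.asIdeal : ℕ) : ℂ) ≠ 0 := by
      rw [Complex.natCast_log.symm]
      have h3 := two_le_absNorm v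
      have h4 : Real.log ((Ideal.absNorm v.asIdeal : ℕ) : ℝ) ≠ 0 :=
        (Real.log_pos (by exact_mod_cast (by omega : 1 < Ideal.absNorm v.asIdeal))).ne'
      exact_mod_cast h4
    filter_upwards [h1.eventually_ne h2] with s hs h0
    rw [h, one_mul] at h0
    rw [h0, mul_zero] at hs
    exact hs rfl
  · have h1 := tendsto_hP D {v} χ
    have h2 : cvQ χ (toQ (xP D {v})) ≠ 0 := by
      rw [cvQ_xP, Finset.prod_singleton]
      exact sub_ne_zero.2 (Ne.symm h)
    filter_upwards [h1.eventually_ne h2] with s hs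
    unfold hP at hs
    rwa [Finset.prod_singleton] at hs

/-- **Monotonicity.** If there is an injection `e : V → V'` such that `σ (e v)` is a power of `σ v`
then Rubin's conjecture for `S ∪ V` and `T` implies Rubin's conjecture for `S ∪ V'` and `T`. -/
theorem rubin_mono (D : RubinData F H G) (T : Finset (HeightOneSpectrum (𝓞 F)))
    {V V' : Finset (HeightOneSpectrum (𝓞 F))} (hV : Extra D V) (hV' : Extra D V')
    (e : HeightOneSpectrum (𝓞 F) → HeightOneSpectrum (𝓞 F))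
    (he : Set.InjOn e (V : Set (HeightOneSpectrum (𝓞 F)))) (hm : ∀ v ∈ V, e v ∈ V')
    (hz : ∀ v ∈ V, D.σ (e v) ∈ Subgroup.zpowers (D.σ v))
    (hR : (D.addPrimes V hV).Rubin T) : (D.addPrimes V' hV').Rubin T := by
  classical
  obtain ⟨u', hER, hint, hSt⟩ := hR
  change Wedge G D.r ((D.addPrimes V hV).U T) at u'
  obtain ⟨C, hCd⟩ : ∃ C : Finset G, C = V.image D.σ := ⟨_, rfl⟩
  have hC : ∀ v ∈ V, D.σ v ∈ C := fun v hv => hCd ▸ Finset.mem_image_of_mem _ hv
  have hC' : ∀ g ∈ C, ∃ v ∈ V, D.σ v = g := fun g hg => Finset.mem_image.1 (hCd ▸ hg)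
  obtain ⟨τ, hτ1, hτ2, hτ3, hτ4⟩ := exists_tau3 (F := F) (H := H) C
  have hmem : ∀ x ∈ (D.addPrimes V hV).U T, τ x ∈ D.U T := by
    intro x hx
    refine hτ3 (D.S : Set _) (T : Set _) (V : Set _) ?_ x ?_
    · intro v hv
      exact ⟨D.σ v, hC v (Finset.mem_coe.1 hv), fun w hw => Pool.Agent.K3h90.RL.t_FIXF F H G v
        (D.σ v) (D.frob v (hV v (Finset.mem_coe.1 hv)).1) w hw⟩
    · have hx' : x ∈ unitGroup (((D.addPrimes V hV).S : Finset _) :
          Set (HeightOneSpectrum (𝓞 F))) (T : Set _) := hx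
      rw [coe_add_S] at hx'
      exact hx'
  obtain ⟨y, hy⟩ := Pool.Agent.K3h66.RS.t_DIVZ G _ V V' D.σ e he hm hz
  have hy' : xP D V' = xP D V * y := hy
  obtain ⟨a, ha⟩ : ∃ a : MonoidAlgebra ℚ G, a = toQ (xC C) ^ D.r * toQ (xP D V) := ⟨_, rfl⟩
  obtain ⟨b, hb1, hb2⟩ := Pool.Agent.K3h72.RL.t_VNR G a
  have hbz : ∀ χ : G →* ℂˣ, (∃ v ∈ V, χ (D.σ v) = 1) → cvQ χ b = 0 := by
    intro χ h
    have h1 : cvQ χ a = 0 := by
      rw [ha, map_mul, cvQ_xP_eq_zero h, mul_zero]
    rw [← hb2, map_mul, map_mul, h1, mul_zero, zero_mul]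
  have hba : ∀ χ : G →* ℂˣ, (∀ v ∈ V, χ (D.σ v) ≠ 1) → cvQ χ a * cvQ χ b = 1 := by
    intro χ hχ
    have hane : cvQ χ a ≠ 0 := by
      rw [ha, map_mul, map_pow]
      refine mul_ne_zero (pow_ne_zero _ (cvQ_xC_ne_zero fun g hg => ?_)) (cvQ_xP_ne_zero hχ)
      obtain ⟨v, hv, rfl⟩ := hC' g hg
      exact hχ v hv
    have h1 := congrArg (cvQ χ) hb1
    rw [map_mul, map_mul] at h1
    exact mul_right_cancel₀ hane (by rw [h1, one_mul])
  have hcz : ∀ χ : G →* ℂˣ, (∃ v ∈ V, χ (D.σ v) = 1) → ∀ k, charValue χ (toR (u'.c k)) = 0 := by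
    rintro χ ⟨v, hv, h1⟩ k
    exact hER χ (not_active D hV hv h1) k
  let u : Wedge G D.r ((D.addPrimes V' hV').U T) :=
    ⟨u'.n, fun k => b * toQ (xP D V') * u'.c k,
      fun k j => ⟨τ (u'.x k j : Hˣ), U_le_add D hV' T (hmem _ (u'.x k j).2)⟩⟩
  refine ⟨u, ?_, ?_, ?_⟩
  · intro χ hχ k
    change charValue χ (toR (b * toQ (xP D V') * u'.c k)) = 0
    rw [← cvQ_apply, map_mul, map_mul]
    by_cases h1 : ∃ v ∈ V, χ (D.σ v) = 1
    · rw [hbz χ h1, zero_mul, zero_mul]
    · by_cases h2 : ∃ v ∈ V', χ (D.σ v) = 1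
      · rw [cvQ_xP_eq_zero h2, mul_zero, zero_mul]
      · push Not at h2
        have h3 : ¬ (D.addPrimes V hV).Active χ := fun h4 =>
          hχ (active_add D hV' h2 (active_of_add D hV h4))
        rw [cvQ_apply χ (u'.c k), hER χ h3 k, mul_zero]
  · intro ψ
    change Fin D.r → GHom G ((D.addPrimes V' hV').U T) at ψ
    let ρ : D.U T →* (D.addPrimes V' hV').U T := Subgroup.inclusion (U_le_add D hV' T)
    have hext := fun i : Fin D.r => exists_ext D hV T (comap ρ (fun γ x y hxy => hxy) (ψ i))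
    choose ψ' hψ' using hext
    obtain ⟨z, hz2⟩ := hint ψ'
    have hz' : Wedge.value u' ψ' = toQ z := hz2
    have hdet : ∀ k : Fin u'.n, Matrix.det (Matrix.of fun (i j : Fin D.r) => (ψ i).f
        (Additive.ofMul (⟨τ (u'.x k j : Hˣ), U_le_add D hV' T (hmem _ (u'.x k j).2)⟩ :
          (D.addPrimes V' hV').U T))) =
        xC C ^ D.r * Matrix.det (Matrix.of fun (i j : Fin D.r) =>
          (ψ' i).f (Additive.ofMul (u'.x k j))) := by
      intro k
      rw [← det_natCast_mul]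
      congr 1
      ext i j : 1
      obtain ⟨h5, h6⟩ := hτ4 ((D.addPrimes V hV).U T) (fun γ x hx => act_mem_U _ T γ x hx) (ψ' i)
        (u'.x k j : Hˣ) (u'.x k j).2
      refine Eq.trans ?_ h6
      exact (hψ' i ⟨τ (u'.x k j : Hˣ), hmem _ (u'.x k j).2⟩).symm
    have e1 : Wedge.value (r := D.r) u ψ = toQ y * ((a * b) * Wedge.value u' ψ') := by
      have e2 : toQ y * ((a * b) * Wedge.value u' ψ') =
          (b * toQ (xP D V') * toQ (xC C ^ D.r)) * Wedge.value u' ψ' := by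
        rw [ha, hy', map_mul, map_pow]
        ring
      rw [e2]
      unfold Wedge.value
      rw [Finset.mul_sum]
      refine Finset.sum_congr rfl fun k _ => ?_
      change b * toQ (xP D V') * u'.c k * toQ (Matrix.det (Matrix.of fun (i j : Fin D.r) => (ψ i).f
        (Additive.ofMul (⟨τ (u'.x k j : Hˣ), U_le_add D hV' T (hmem _ (u'.x k j).2)⟩ :
          (D.addPrimes V' hV').U T)))) = _
      rw [hdet k, map_mul]
      ring
    have e3 : (a * b) * Wedge.value u' ψ' = Wedge.value u' ψ' := by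
      rw [← sub_eq_zero]
      refine eq_zero_of_charValue _ fun χ => ?_
      rw [← cvQ_apply, map_sub, map_mul, map_mul]
      by_cases h1 : ∃ v ∈ V, χ (D.σ v) = 1
      · have h2 : cvQ χ (Wedge.value u' ψ') = 0 := by
          unfold Wedge.value
          rw [map_sum]
          refine Finset.sum_eq_zero fun k _ => ?_
          rw [map_mul, cvQ_apply, hcz χ h1 k, zero_mul]
        rw [h2, mul_zero, sub_zero]
      · push Not at h1
        rw [hba χ h1, one_mul, sub_self]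
    refine ⟨y * z, ?_⟩
    refine Eq.trans e1 ?_
    rw [e3, hz', map_mul]
  · intro χ
    change Tendsto (fun s : ℂ => (s ^ D.r)⁻¹ * (D.addPrimes V' hV').LT T χ⁻¹ s) (𝓝[≠] 0)
      (𝓝 (charValue χ (Wedge.regulator u D.w)))
    have h1 : Tendsto (fun s : ℂ => (s ^ D.r)⁻¹ * (D.addPrimes V hV).LT T χ⁻¹ s) (𝓝[≠] 0)
      (𝓝 (charValue χ (Wedge.regulator u' D.w))) := hSt χ
    simp only [LT_add] at h1 ⊢
    have hreg : charValue χ (Wedge.regulator u D.w) =
        cvQ χ b * cvQ χ (toQ (xP D V')) * cvQ χ (toQ (xC C)) ^ D.r *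
          charValue χ (Wedge.regulator u' D.w) := by
      rw [charValue_regulator, charValue_regulator, Finset.mul_sum]
      refine Finset.sum_congr rfl fun k _ => ?_
      change cvQ χ (b * toQ (xP D V') * u'.c k) * Matrix.det (Matrix.of fun i j =>
        charValue χ (reg G (D.w i) (τ (u'.x k j : Hˣ)))) = _
      have h4 : (Matrix.of fun i j => charValue χ (reg G (D.w i) (τ (u'.x k j : Hˣ)))) =
          Matrix.of fun i j => cvQ χ (toQ (xC C)) * charValue χ (reg G (D.w i) (u'.x k j : Hˣ)) := by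
        ext i j
        simp only [Matrix.of_apply]
        rw [hτ2, charValue_mul, ← cvQ_apply]
      rw [h4, det_natCast_mul, map_mul, map_mul]
      ring
    obtain ⟨l, hl⟩ := tendsto_ratio D e he hm hz χ
    have h2 := hl.mul h1
    have h3 : ∀ᶠ s : ℂ in 𝓝[≠] 0, hP D V' χ s / hP D V χ s *
        ((s ^ D.r)⁻¹ * (hP D V χ s * D.LT T χ⁻¹ s)) =
        (s ^ D.r)⁻¹ * (hP D V' χ s * D.LT T χ⁻¹ s) := by
      filter_upwards [hP_ne D V χ] with s hs
      field_simp
    have h4 : Tendsto (fun s : ℂ => (s ^ D.r)⁻¹ * (hP D V' χ s * D.LT T χ⁻¹ s)) (𝓝[≠] 0)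
        (𝓝 (l * charValue χ (Wedge.regulator u' D.w))) := h2.congr' h3
    have h5 : charValue χ (Wedge.regulator u D.w) = l * charValue χ (Wedge.regulator u' D.w) := by
      by_cases h6 : ∃ v ∈ V, χ (D.σ v) = 1
      · rw [charValue_regulator_eq_zero D u' χ (hcz χ h6), mul_zero]
        rw [hreg, hbz χ h6]
        ring
      · push Not at h6
        have h7 : Tendsto (fun s : ℂ => hP D V' χ s / hP D V χ s) (𝓝[≠] 0)
            (𝓝 (cvQ χ (toQ (xP D V')) / cvQ χ (toQ (xP D V)))) :=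
          (tendsto_hP D V' χ).div (tendsto_hP D V χ) (cvQ_xP_ne_zero h6)
        have h8 := tendsto_nhds_unique hl h7
        have h9 := hba χ h6
        rw [ha, map_mul, map_pow] at h9
        rw [hreg, h8]
        have h10 := cvQ_xP_ne_zero (D := D) h6
        field_simp
        linear_combination (cvQ χ (toQ (xP D V')) * charValue χ (Wedge.regulator u' D.w)) * h9
    rw [h5]
    exact h4

end Pool.Agent.K3h81.RL
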