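import Pool.Agent.K3h30.RS.Stm3
import Pool.Agent.K3h25.RS.Trans

/-!
# Rubin's conjecture for larger sets `S`: statements of the parts
-/

set_option autoImplicit false

open NumberField IsDedekindDomain Filter Topology

noncomputable section

namespace Pool.Agent.K3h81.RL

open Pool.Agent.K3h30.RS

/-- Brick FIXF: the Frobenius automorphism fixes the prime ideals over `v`. -/
def S_FIXF : Prop :=
  ∀ (F H G : Type) [Field F] [NumberField F] [Field H] [NumberField H] [Algebra F H]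
    [CommGroup G] [Finite G] [MulSemiringAction G H] [IsGaloisGroup G F H]
    (v : HeightOneSpectrum (𝓞 F)) (γ : G), IsFrob (H := H) v γ →
    ∀ w : HeightOneSpectrum (𝓞 H), Above {v} w → ∀ x : H, w.valuation H (γ • x) = w.valuation H x

/-- Brick EUL: removing finitely many factors from an infinite product. -/
def S_EUL : Prop :=
  ∀ (A : Type) [DecidableEq A] (S P : Finset A), Disjoint S P → ∀ (f : A → ℂ) (L : ℂ),
    (∀ v ∈ P, f v ≠ 0) →
    HasProd (fun v : {v : A // v ∉ S} => (f v)⁻¹) L →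
    HasProd (fun v : {v : A // v ∉ S ∪ P} => (f v)⁻¹) ((∏ v ∈ P, f v) * L)

/-- Brick FRB: there are arbitrarily many prime ideals with a given Frobenius automorphism. -/
def S_FRB : Prop :=
  ∀ (F H G : Type) [Field F] [NumberField F] [Field H] [NumberField H] [Algebra F H]
    [CommGroup G] [Finite G] [MulSemiringAction G H] [IsGaloisGroup G F H]
    (D : RubinData F H G) (bad : Finset (HeightOneSpectrum (𝓞 F))) (K : ℕ) (g : G),
    ∃ P : Finset (HeightOneSpectrum (𝓞 F)), Disjoint bad P ∧ P.card = K ∧ ∀ v ∈ P, D.σ v = g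

/-- Brick VNR: generalized inverses in `ℚ[G]`. -/
def S_VNR : Prop :=
  ∀ (G : Type) [CommGroup G] [Finite G] (a : MonoidAlgebra ℚ G),
    ∃ b : MonoidAlgebra ℚ G, a * b * a = a ∧ b * a * b = b

/-- The element `∏ (1 - g)`, `g ∈ C`, of `ℤ[G]`. -/
def xC {G : Type} [CommGroup G] (C : Finset G) : MonoidAlgebra ℤ G :=
  ∏ g ∈ C, (1 - MonoidAlgebra.single g 1)

/-- Brick SYL: a power of `∏ (1 - g)` is divisible by a power of `|G|` if `C` meets all Sylow
subgroups. -/
def S_SYL : Prop :=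
  ∀ (G : Type) [CommGroup G] [Finite G] (C : Finset G),
    (∀ l : ℕ, l.Prime → l ∣ Nat.card G → ∃ g ∈ C, ∃ j : ℕ, orderOf g = l ^ j) →
    ∀ m : ℕ, ∃ (M : ℕ) (z : MonoidAlgebra ℤ G), xC C ^ M = (Nat.card G : MonoidAlgebra ℤ G) ^ m * z

/-- Brick ORD: where no `χ (g)`, `g ∈ C`, is `1`, the element `∏ (1 - g)` divides a power of
`|G|`. -/
def S_ORD : Prop :=
  ∀ (G : Type) [CommGroup G] [Finite G] (C : Finset G) (m : ℕ), ∃ M : ℕ,
    ∀ y : MonoidAlgebra ℚ G, (∀ χ : G →* ℂˣ, (∃ g ∈ C, χ g = 1) → charValue χ (toR y) = 0) →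
      toQ (xC C ^ m) * y ∈ (toQ (G := G)).range →
      toQ ((Nat.card G : MonoidAlgebra ℤ G) ^ M) * y ∈ (toQ (G := G)).range

/-- Brick TAU: raising `S`-units to the power `∏ (1 - g)`. -/
def S_TAU : Prop :=
  ∀ (F H G : Type) [Field F] [NumberField F] [Field H] [NumberField H] [Algebra F H]
    [CommGroup G] [Finite G] [MulSemiringAction G H] [IsGaloisGroup G F H] (C : Finset G),
    ∃ τ : Hˣ →* Hˣ,
      (∀ (γ : G) (x : Hˣ), τ (act γ x) = act γ (τ x)) ∧
      (∀ (w : Place H) (x : Hˣ), reg G w (τ x) = toR (toQ (xC C)) * reg G w x) ∧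
      ∀ (S T P : Set (HeightOneSpectrum (𝓞 F))),
        (∀ v ∈ P, ∃ g ∈ C, ∀ w : HeightOneSpectrum (𝓞 H), Above {v} w →
          ∀ x : H, w.valuation H (g • x) = w.valuation H x) →
        ∀ x ∈ unitGroup (H := H) (S ∪ P) T, τ x ∈ unitGroup S T

end Pool.Agent.K3h81.RL
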